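import Pool.Agent.helper6.EV.Spec
import Pool.Agent.helper13.LD.E3
import Pool.Agent.helper85.LD.G1
import Pool.Agent.helper30.LD.J0

set_option autoImplicit false

namespace Pool.Agent.EV

open N1f72dd46 Filter MeasureTheory Complex Metric Pool.Agent.helper6.LD

theorem LZ_gen (r : ℝ) (f : ℕ → ℂ) (hf : LSeriesSummable f ((1 + r : ℝ) : ℂ)) (s : ℂ)
    (hs : s.re = 1 + r) :
    ‖LSeries f s‖ ≤ ∑' n, ‖LSeries.term f ((1 + r : ℝ) : ℂ) n‖ := by
  have h1 : ∀ n, ‖LSeries.term f s n‖ ≤ ‖LSeries.term f ((1 + r : ℝ) : ℂ) n‖ :=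
    LSeries.norm_term_le_of_re_le_re f (by rw [hs, ofReal_re])
  have h2 : Summable (fun n => ‖LSeries.term f ((1 + r : ℝ) : ℂ) n‖) := hf.norm
  have h3 : Summable (fun n => ‖LSeries.term f s n‖) :=
    h2.of_nonneg_of_le (fun _ => norm_nonneg _) h1
  unfold LSeries
  exact (norm_tsum_le_tsum_norm h3).trans (h3.tsum_le_tsum h1 h2)

theorem LZ_low (r : ℝ) (hr : 0 < r) : ∃ K : ℝ, 1 ≤ K ∧ ∀ s : ℂ, s.re = 1 + r →
    1 ≤ K * ‖riemannZeta s‖ ∧ ‖logDeriv riemannZeta s‖ ≤ K := by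
  obtain ⟨K1, hK1⟩ : ∃ K1, K1 = ∑' n, ‖LSeries.term
    (fun n => ((ArithmeticFunction.moebius n : ℤ) : ℂ)) ((1 + r : ℝ) : ℂ) n‖ := ⟨_, rfl⟩
  obtain ⟨K2, hK2⟩ : ∃ K2, K2 = ∑' n, ‖LSeries.term
    (fun n => ((ArithmeticFunction.vonMangoldt n : ℝ) : ℂ)) ((1 + r : ℝ) : ℂ) n‖ := ⟨_, rfl⟩
  have hre : 1 < (((1 + r : ℝ) : ℂ)).re := by rw [ofReal_re]; linarith
  refine ⟨max 1 (max K1 K2), le_max_left _ _, fun s hs => ?_⟩
  have hs1 : 1 < s.re := by rw [hs]; linarith
  constructor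
  · have h1 := LZ_gen r _ (ArithmeticFunction.LSeriesSummable_moebius_iff.2 hre) s hs
    rw [← hK1] at h1
    have h2 := ArithmeticFunction.LSeries_zeta_mul_Lseries_moebius hs1
    rw [ArithmeticFunction.LSeries_zeta_eq_riemannZeta hs1] at h2
    obtain ⟨M, hM⟩ : ∃ M, M = LSeries
      (fun n => ((ArithmeticFunction.moebius n : ℤ) : ℂ)) s := ⟨_, rfl⟩
    rw [← hM] at h1 h2
    have h3 : ‖riemannZeta s‖ * ‖M‖ = 1 := by
      rw [← norm_mul, h2, norm_one]
    have h4 : K1 ≤ max 1 (max K1 K2) := (le_max_left _ _).trans (le_max_right _ _)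
    calc (1 : ℝ) = ‖riemannZeta s‖ * ‖M‖ := h3.symm
      _ ≤ ‖riemannZeta s‖ * max 1 (max K1 K2) :=
          mul_le_mul_of_nonneg_left (h1.trans h4) (norm_nonneg _)
      _ = _ := mul_comm _ _
  · have h1 := LZ_gen r _ (ArithmeticFunction.LSeriesSummable_vonMangoldt hre) s hs
    rw [← hK2] at h1
    have h2 := ArithmeticFunction.LSeries_vonMangoldt_eq_deriv_riemannZeta_div hs1
    have h3 : logDeriv riemannZeta s = -LSeries
        (fun n => ((ArithmeticFunction.vonMangoldt n : ℝ) : ℂ)) s := by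
      rw [h2, logDeriv_apply]
      ring
    rw [h3, norm_neg]
    exact h1.trans ((le_max_right _ _).trans (le_max_right _ _))

theorem LZ : LZ_stmt := by
  classical
  obtain ⟨C₁, hC₁, hgrow⟩ := zeta_growth
  obtain ⟨C₂, hC₂, hexp⟩ := expansion (1 / 2) (3 / 4) (by norm_num) (by norm_num)
  refine ⟨4 * (4 * C₂ + 1), by positivity, fun r hr hr8 => ?_⟩
  obtain ⟨K, hK1, hK⟩ := LZ_low r hr
  refine ⟨max 4 (max (2 * C₁ * K) (Real.exp K)), fun t ht => ?_⟩
  have ht4 : 4 ≤ t := (le_max_left _ _).trans ht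
  have htC : 2 * C₁ * K ≤ t := ((le_max_left _ _).trans (le_max_right _ _)).trans ht
  have htK : Real.exp K ≤ t := ((le_max_right _ _).trans (le_max_right _ _)).trans ht
  have hlogK : K ≤ Real.log t := by
    rw [Real.le_log_iff_exp_le (by linarith)]
    exact htK
  have hlog1 : 1 ≤ Real.log t := hK1.trans hlogK
  obtain ⟨c, hc⟩ : ∃ c : ℂ, c = ((1 + r : ℝ) : ℂ) + t * I := ⟨_, rfl⟩
  have hre : c.re = 1 + r := by rw [hc]; simp
  have him : c.im = t := by rw [hc]; simp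
  obtain ⟨hz1, hz2⟩ := hK c hre
  have hball : ∀ z ∈ closedBall c (3 / 4), 1 / 8 ≤ z.re ∧ 1 ≤ |z.im| ∧ ‖z‖ ≤ 2 * t := by
    intro z hz
    rw [mem_closedBall, dist_eq_norm] at hz
    have h1 := Complex.abs_re_le_norm (z - c)
    have h2 := Complex.abs_im_le_norm (z - c)
    rw [Complex.sub_re, hre] at h1
    rw [Complex.sub_im, him] at h2
    have h1' := (abs_le.mp (h1.trans hz)).1
    have h2' := (abs_le.mp (h2.trans hz)).1
    refine ⟨by linarith, ?_, ?_⟩
    · refine le_trans ?_ (le_abs_self _); linarith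
    · have h3 : ‖z‖ ≤ ‖z - c‖ + ‖c‖ := by
        have := norm_add_le (z - c) c
        simpa using this
      have h4 : ‖c‖ ≤ (1 + r) + t := by
        rw [hc]
        refine (norm_add_le _ _).trans ?_
        rw [norm_mul, Complex.norm_I, Complex.norm_real, Complex.norm_real, mul_one,
          Real.norm_of_nonneg (by linarith), Real.norm_of_nonneg (by linarith)]
      linarith
  have han : AnalyticOnNhd ℂ riemannZeta (closedBall c (3 / 4)) := by
    have hd : DifferentiableOn ℂ riemannZeta ({1}ᶜ : Set ℂ) := fun z hz =>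
      (differentiableAt_riemannZeta hz).differentiableWithinAt
    have ha := hd.analyticOnNhd isOpen_compl_singleton
    intro z hz
    apply ha
    intro h1
    have := (hball z hz).2.1
    rw [h1] at this
    simp at this
    linarith
  have hB1 : 1 ≤ 2 * Real.log t := by linarith
  have hexpB : Real.exp (2 * Real.log t) = t ^ 2 := by
    rw [two_mul, Real.exp_add, Real.exp_log (by linarith)]
    ring
  have hbd : ∀ z ∈ closedBall c (3 / 4),
      ‖riemannZeta z‖ ≤ Real.exp (2 * Real.log t) * ‖riemannZeta c‖ := by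
    intro z hz
    obtain ⟨hz3, hz4, hz5⟩ := hball z hz
    have h1 := hgrow z hz3 hz4
    rw [hexpB]
    have h5 : ‖riemannZeta z‖ ≤ 2 * C₁ * t := by
      refine h1.trans ?_
      nlinarith
    have h6 : 2 * C₁ * t ≤ 2 * C₁ * t * (K * ‖riemannZeta c‖) := by
      have : 0 < 2 * C₁ * t := by positivity
      nlinarith
    have h7 : 2 * C₁ * t * (K * ‖riemannZeta c‖) ≤ t ^ 2 * ‖riemannZeta c‖ := by
      have h8 : 2 * C₁ * K * (t * ‖riemannZeta c‖) ≤ t * (t * ‖riemannZeta c‖) :=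
        mul_le_mul_of_nonneg_right htC (by positivity)
      nlinarith
    linarith
  have hne : riemannZeta c ≠ 0 := by
    intro h
    rw [h, norm_zero, mul_zero] at hz1
    linarith
  have hmain := hexp riemannZeta c (2 * Real.log t) 1 le_rfl hB1 han hne hbd
  have hfin := zeros_finite (isBounded_closedBall (x := c) (r := (1 / 2 : ℝ)))
  rw [finsum_mem_eq_finite_toFinset_sum _ hfin] at hmain
  obtain ⟨S, hS⟩ : ∃ S, S = hfin.toFinset := ⟨_, rfl⟩
  rw [← hS] at hmain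
  have hSm : ∀ ρ, ρ ∈ S ↔ ρ ∈ closedBall c (1 / 2) ∧ riemannZeta ρ = 0 := by
    intro ρ
    rw [hS, Set.Finite.mem_toFinset, Set.mem_ofPred_eq]
  have hSre : ∀ ρ, riemannZeta ρ = 0 → ρ.re < 1 := by
    intro ρ hρ
    by_contra h
    push Not at h
    exact riemannZeta_ne_zero_of_one_le_re h hρ
  have h1 : ‖∑ ρ ∈ S, (analyticOrderNatAt riemannZeta ρ : ℂ) * ((ρ - c) ^ 1)⁻¹‖ ≤
      (4 * C₂ + 1) * Real.log t := by
    have h2 : ‖iteratedDeriv (1 - 1) (logDeriv riemannZeta) c / ((1 - 1).factorial : ℂ)‖ ≤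
        Real.log t := by
      simpa using hz2.trans hlogK
    have h3 := norm_sub_le (iteratedDeriv (1 - 1) (logDeriv riemannZeta) c /
      ((1 - 1).factorial : ℂ) + ∑ ρ ∈ S, (analyticOrderNatAt riemannZeta ρ : ℂ) *
        ((ρ - c) ^ 1)⁻¹) (iteratedDeriv (1 - 1) (logDeriv riemannZeta) c /
      ((1 - 1).factorial : ℂ))
    rw [add_sub_cancel_left] at h3
    have h4 : C₂ * (2 * Real.log t) * ((1 : ℕ) : ℝ) ^ 2 * (((1 / 2 : ℝ)) ^ 1)⁻¹ =
        4 * C₂ * Real.log t := by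
      push_cast
      ring
    rw [h4] at hmain
    linarith
  have hterm : ∀ ρ ∈ S, 0 ≤ -((analyticOrderNatAt riemannZeta ρ : ℂ) * ((ρ - c) ^ 1)⁻¹).re ∧
      (ρ ∈ closedBall (((1 : ℝ) : ℂ) + t * I) r → 1 / (4 * r) ≤
        -((analyticOrderNatAt riemannZeta ρ : ℂ) * ((ρ - c) ^ 1)⁻¹).re) := by
    intro ρ hρ
    have hρ0 := ((hSm ρ).1 hρ).2
    have hρre := hSre ρ hρ0
    have hord := order_pos hρ0
    have hord' : (1 : ℝ) ≤ (analyticOrderNatAt riemannZeta ρ : ℝ) := by exact_mod_cast hord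
    have e1 : -((analyticOrderNatAt riemannZeta ρ : ℂ) * ((ρ - c) ^ 1)⁻¹).re =
        (analyticOrderNatAt riemannZeta ρ : ℝ) * ((1 + r - ρ.re) / Complex.normSq (ρ - c)) := by
      rw [pow_one]
      have : (analyticOrderNatAt riemannZeta ρ : ℂ) =
        ((analyticOrderNatAt riemannZeta ρ : ℝ) : ℂ) := by push_cast; rfl
      rw [this, Complex.re_ofReal_mul, Complex.inv_re, Complex.sub_re, hre]
      ring
    have hns : 0 < Complex.normSq (ρ - c) := by
      rw [Complex.normSq_pos, sub_ne_zero]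
      intro h
      rw [h, hre] at hρre
      linarith
    rw [e1]
    refine ⟨by
      have : 0 ≤ (1 + r - ρ.re) / Complex.normSq (ρ - c) := div_nonneg (by linarith) hns.le
      positivity, fun hb => ?_⟩
    rw [mem_closedBall, dist_eq_norm] at hb
    have h5 : ‖ρ - c‖ ≤ 2 * r := by
      have h6 : ρ - c = (ρ - (((1 : ℝ) : ℂ) + t * I)) - ((r : ℝ) : ℂ) := by
        rw [hc]
        push_cast
        ring
      rw [h6]
      refine (norm_sub_le _ _).trans ?_
      rw [Complex.norm_real, Real.norm_of_nonneg hr.le]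
      linarith
    have h7 : Complex.normSq (ρ - c) ≤ 4 * r ^ 2 := by
      rw [Complex.normSq_eq_norm_sq]
      nlinarith [norm_nonneg (ρ - c)]
    have h8 : 1 / (4 * r) ≤ (1 + r - ρ.re) / Complex.normSq (ρ - c) := by
      rw [div_le_div_iff₀ (by positivity) hns]
      nlinarith
    have h9 : 0 < 1 / (4 * r) := by positivity
    nlinarith
  have hsub : (({ρ : ℂ | ρ ∈ closedBall (((1 : ℝ) : ℂ) + t * I) r ∧
      riemannZeta ρ = 0}.ncard : ℕ) : ℝ) =
      ((S.filter (fun ρ => ρ ∈ closedBall (((1 : ℝ) : ℂ) + t * I) r)).card : ℝ) := by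
    congr 1
    rw [← Set.ncard_coe_finset]
    congr 1
    ext ρ
    rw [Set.mem_ofPred_eq, Finset.mem_coe, Finset.mem_filter, hSm]
    constructor
    · rintro ⟨h5, h6⟩
      refine ⟨⟨?_, h6⟩, h5⟩
      rw [mem_closedBall, dist_eq_norm] at h5 ⊢
      have h7 : ρ - c = (ρ - (((1 : ℝ) : ℂ) + t * I)) - ((r : ℝ) : ℂ) := by
        rw [hc]
        push_cast
        ring
      rw [h7]
      refine (norm_sub_le _ _).trans ?_
      rw [Complex.norm_real, Real.norm_of_nonneg hr.le]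
      linarith
    · rintro ⟨⟨-, h6⟩, h5⟩
      exact ⟨h5, h6⟩
  rw [hsub]
  have h10 : ((S.filter (fun ρ => ρ ∈ closedBall (((1 : ℝ) : ℂ) + t * I) r)).card : ℝ) *
      (1 / (4 * r)) ≤ ∑ ρ ∈ S, -((analyticOrderNatAt riemannZeta ρ : ℂ) * ((ρ - c) ^ 1)⁻¹).re := by
    calc ((S.filter (fun ρ => ρ ∈ closedBall (((1 : ℝ) : ℂ) + t * I) r)).card : ℝ) * (1 / (4 * r))
        = ∑ ρ ∈ S.filter (fun ρ => ρ ∈ closedBall (((1 : ℝ) : ℂ) + t * I) r), 1 / (4 * r) := by
          rw [Finset.sum_const, nsmul_eq_mul]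
      _ ≤ ∑ ρ ∈ S.filter (fun ρ => ρ ∈ closedBall (((1 : ℝ) : ℂ) + t * I) r),
          -((analyticOrderNatAt riemannZeta ρ : ℂ) * ((ρ - c) ^ 1)⁻¹).re := by
          refine Finset.sum_le_sum fun ρ hρ => ?_
          rw [Finset.mem_filter] at hρ
          exact (hterm ρ hρ.1).2 hρ.2
      _ ≤ _ := Finset.sum_le_sum_of_subset_of_nonneg (Finset.filter_subset _ _)
          fun ρ hρ _ => (hterm ρ hρ).1
  have h11 : ∑ ρ ∈ S, -((analyticOrderNatAt riemannZeta ρ : ℂ) * ((ρ - c) ^ 1)⁻¹).re ≤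
      (4 * C₂ + 1) * Real.log t := by
    rw [Finset.sum_neg_distrib, ← Complex.re_sum]
    refine le_trans ?_ h1
    refine le_trans (neg_le_abs _) (Complex.abs_re_le_norm _)
  have h12 := h10.trans h11
  rw [mul_one_div, div_le_iff₀ (by positivity)] at h12
  linarith

end Pool.Agent.EV
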